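import Pool.Agent.H61.KW.TB

/-! Row LAM of the board `kw_modules`: a linear map whose kernel on the span of `x` is spanned by
two given vectors. -/

open Topology Set
open Pool.Agent.H59 Pool.Agent.H64.LB Pool.Agent.H61.KU Pool.Agent.H61.KV Pool.Agent.H61.KW

namespace Pool.Agent.H25.KW.LAM

/-- the coordinates of the projection -/
noncomputable def L (a b : Fin 5 → ℝ) : (Fin 5 → ℝ) →ₗ[ℝ] (Fin 3 → ℝ) where
  toFun c := fun i => c (i.natAdd 2) - (c 1 / a 1) * a (i.natAdd 2) - (c 0 / b 0) * b (i.natAdd 2)
  map_add' c d := by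
    funext i
    simp only [Pi.add_apply]
    ring
  map_smul' r c := by
    funext i
    simp only [Pi.smul_apply, smul_eq_mul, RingHom.id_apply]
    ring

theorem pf_LAM : T_LAM := by
  intro V _ _ _ x a b hx ha0 ha hb1 hb
  have ha1 : a 1 ≠ 0 := (ha 1 (by decide)).ne'
  have hb0 : b 0 ≠ 0 := (hb 0 (by decide)).ne'
  obtain ⟨g, hg⟩ := (Fintype.linearCombination ℝ x).exists_leftInverse_of_injective
    (by rw [LinearMap.ker_eq_bot]; exact LinearIndependent.fintypeLinearCombination_injective hx)
  have hgx : ∀ c : Fin 5 → ℝ, g (∑ i, c i • x i) = c := by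
    intro c
    have h := LinearMap.congr_fun hg c
    simpa [Fintype.linearCombination_apply] using h
  refine ⟨(L a b).comp g, ?_, ?_, ?_⟩
  · rw [LinearMap.comp_apply, hgx]
    funext i
    simp only [L, LinearMap.coe_mk, AddHom.coe_mk, Pi.zero_apply, ha0]
    field_simp
    ring
  · rw [LinearMap.comp_apply, hgx]
    funext i
    simp only [L, LinearMap.coe_mk, AddHom.coe_mk, Pi.zero_apply, hb1]
    field_simp
    ring
  · intro c hc
    rw [LinearMap.comp_apply, hgx] at hc
    refine ⟨c 1 / a 1, c 0 / b 0, ?_⟩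
    have h3 : ∀ i : Fin 3, c (i.natAdd 2) = c 1 / a 1 * a (i.natAdd 2) +
        c 0 / b 0 * b (i.natAdd 2) := by
      intro i
      have h := congrFun hc i
      simp only [L, LinearMap.coe_mk, AddHom.coe_mk, Pi.zero_apply] at h
      linarith
    intro i
    fin_cases i
    · simp only [Fin.zero_eta, ha0, mul_zero, zero_add]
      field_simp
    · simp only [Fin.mk_one, hb1, mul_zero, add_zero]
      field_simp
    · exact h3 0
    · exact h3 1
    · exact h3 2

end Pool.Agent.H25.KW.LAM
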